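import Pool.Agent.Helper64.FL.StH

/-! Full list for MP_866009_co: ladders from pieces with a connector. -/

set_option autoImplicit false

namespace Pool.Agent.Helper64.FL

open Pool.Agent.Helper64.CT Pool.Agent.Helper64.DT
open Pool.Agent.Helper64.HG (Ovl Model Circ IC HellyCircle ChordModel)

theorem st_LPW (h1 : ST_LPA) (h2 : ST_W1) : ST_LPW := by
  intro V G x h k E1 n P a t E2 α β hL ht d Ld d' hC hsep S hS hSd
  obtain ⟨hM, _, hmem⟩ := h1 V G x h k E1 n P a t E2 α β hL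
  set M := E1 ++ (arcL n P a t ++ E2) with hMdef
  have hpure : ∀ (u : V) (γ : Bool), (G.Adj h u ↔ γ = true) ∧ (G.Adj k u ↔ γ = false) →
      Pure G h k u := by
    intro u γ hu
    cases γ with
    | true => exact Or.inl ⟨hu.1.2 rfl, fun h5 => Bool.noConfusion (hu.2.1 h5)⟩
    | false => exact Or.inr ⟨fun h5 => Bool.noConfusion (hu.1.1 h5), hu.2.2 rfl⟩
  refine h2 V G S h k d Ld d' M hM.ne hM.nadj hC hM.ip ?_ hM.hM hM.kM ?_ ?_ ?_ ?_ ?_ ?_
  · intro u hu
    refine ⟨hSd u hu, ?_⟩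
    intro v hv
    obtain ⟨g1, g2, g3, g4⟩ := hsep u hu
    rcases (hmem v).2 (Or.inr (Or.inr hv)) with e | e | e | e | ⟨i, e1, e2, e3⟩ | ⟨i, e1, e2, e3⟩
    · exact absurd (e ▸ hv) hM.hM
    · exact absurd (e ▸ hv) hM.kM
    · exact g1 v e
    · exact g2 v e
    · rw [e3]
      exact g3 i e1 e2
    · exact g4 i e1 e2 v e3
  · exact hS ((hmem h).2 (Or.inl rfl))
  · exact hS ((hmem k).2 (Or.inr (Or.inl rfl)))
  · intro u hu
    exact hS ((hmem u).2 (Or.inr (Or.inr hu)))
  · intro u hu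
    exact hpure u α (hM.fst u hu)
  · intro u hu
    exact hpure u β (hM.lst u hu)
  · have hr : ∀ i, a ≤ i → i ≤ a + t → n i ∈ M := by
      intro i hi1 hi2
      rcases (hmem (n i)).1 (Or.inr (Or.inr (Or.inr (Or.inr (Or.inl ⟨i, hi1, hi2, rfl⟩)))))
        with e | e | e
      · exact absurd (hL.hn i hi1 hi2).1 (e ▸ G.loopless.irrefl h)
      · exact absurd (hL.hn i hi1 hi2).2 (e ▸ G.loopless.irrefl k)
      · exact e
    refine ⟨n a, hr a (le_refl _) (by omega), n (a + 1), hr (a + 1) (by omega) (by omega), ?_, ?_,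
      (hL.hn a (le_refl _) (by omega)).1, (hL.hn a (le_refl _) (by omega)).2,
      (hL.hn (a + 1) (by omega) (by omega)).1, (hL.hn (a + 1) (by omega) (by omega)).2⟩
    · exact hL.arc.inj a (a + 1) (le_refl _) (by omega) (by omega)
    · exact hL.st a (a + 1) (le_refl _) (by omega) (by omega)

end Pool.Agent.Helper64.FL
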