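import Pool.Agent.Helper64.FL.StC

/-! `ST_MNP`: a minimal connection with `c` in the middle gives a path of type `TTp`. -/

set_option autoImplicit false

namespace Pool.Agent.Helper64.FL

open Pool.Agent.Helper64.CT Pool.Agent.Helper64.DT
open Pool.Agent.Helper64.HG (Ovl Model Circ IC HellyCircle ChordModel)

theorem mnp_glue {V : Type} (G : SimpleGraph V) : ∀ (A : List V) (c : V) (B : List V),
    IPt G (c :: A) → IPt G (c :: B) → (∀ u ∈ A, ∀ v ∈ B, u ≠ v ∧ ¬ G.Adj u v) →
    IPt G (A.reverse ++ c :: B) := by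
  intro A
  induction A with
  | nil => intro c B _ hB _; simpa using hB
  | cons u A ih =>
    intro c B hA hB hx
    have h1 : (u :: A).reverse ++ c :: B = A.reverse ++ u :: (c :: B) := by simp
    rw [h1]
    obtain ⟨ha1, ha2, ha3, ha4⟩ := hA
    apply ih u (c :: B) ha4
    · refine ⟨?_, ?_, ?_, hB⟩
      · intro x hx'
        rcases List.mem_cons.1 hx' with rfl | hx'
        · exact (ha1 u (by simp)).symm
        · exact (hx u (by simp) x hx').1
      · intro b hb
        have hb' : c = b := by simpa using hb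
        rw [← hb']
        exact (ha2 u (by simp)).symm
      · intro x hx'
        exact (hx u (by simp) x (by simpa using hx')).2
    · intro w hw v hv
      rcases List.mem_cons.1 hv with rfl | hv
      · exact ⟨(ha1 w (by simp [hw])).symm, fun h => ha3 w (by simpa using hw) h.symm⟩
      · exact hx w (by simp [hw]) v hv

theorem mnp_app {V : Type} (G : SimpleGraph V) : ∀ (A B : List V), IPt G (A ++ B) →
    IPt G A ∧ IPt G B ∧
    (∀ u ∈ A, ∀ v ∈ B, u ≠ v ∧ (G.Adj u v → A.getLast? = some u ∧ B.head? = some v)) ∧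
    ∀ u v, A.getLast? = some u → B.head? = some v → G.Adj u v := by
  intro A
  induction A with
  | nil => intro B h; exact ⟨trivial, h, by simp, by simp⟩
  | cons a A ih =>
    intro B h
    obtain ⟨h1, h2, h3, h4⟩ := h
    obtain ⟨i1, i2, i3, i4⟩ := ih B h4
    cases A with
    | nil =>
      refine ⟨⟨by simp, by simp, by simp, trivial⟩, i2, ?_, ?_⟩
      · intro u hu v hv
        have hu' : u = a := by simpa using hu
        subst hu'
        refine ⟨h1 v (by simpa using hv), fun hadj => ⟨by simp, ?_⟩⟩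
        cases B with
        | nil => simp at hv
        | cons w B =>
          rcases List.mem_cons.1 hv with rfl | hv
          · simp
          · exact absurd hadj (h3 v (by simpa using hv))
      · intro u v hu hv
        have hu' : a = u := by simpa using hu
        subst hu'
        exact h2 v (by simpa using hv)
    | cons w A =>
      refine ⟨⟨fun x hx => h1 x (List.mem_append_left B hx), ?_, ?_, i1⟩,
        i2, ?_, ?_⟩
      · intro b hb
        exact h2 b (by simpa using hb)
      · intro x hx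
        exact h3 x (List.mem_append_left B hx)
      · intro u hu v hv
        rcases List.mem_cons.1 hu with rfl | hu
        · refine ⟨h1 v (by simp [hv]), fun hadj => ?_⟩
          exact absurd hadj (h3 v (by simp [hv]))
        · refine ⟨(i3 u hu v hv).1, fun hadj => ?_⟩
          obtain ⟨e1, e2⟩ := (i3 u hu v hv).2 hadj
          exact ⟨by rw [List.getLast?_cons_cons]; exact e1, e2⟩
      · intro u v hu hv
        rw [List.getLast?_cons_cons] at hu
        exact i4 u v hu hv

theorem mnp_pth {V : Type} (G : SimpleGraph V) (a : V) (K : List V) (h : IPt G (a :: K)) :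
    ∃ l w, Pth G a l w ∧ (∀ u, u ∈ PV a l w ↔ u ∈ a :: K) ∧ (a :: K).getLast? = some w := by
  rcases List.eq_nil_or_concat K with rfl | ⟨l, w, rfl⟩
  · exact ⟨[], a, Or.inl ⟨rfl, rfl⟩, by simp [PV], by simp⟩
  · refine ⟨l, w, Or.inr ⟨h.1 w (by simp), by simpa using h⟩, ?_, ?_⟩
    · intro u
      simp [PV]
    · rw [show a :: l.concat w = (a :: l) ++ [w] by simp]
      exact List.getLast?_concat

theorem mnp_con {V : Type} (G : SimpleGraph V) (h3 : ST_CNB) : ∀ (K : List V) (a : V),
    IPt G (a :: K) → ∀ u ∈ a :: K, Cn G {w | w ∈ a :: K} a u := by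
  obtain ⟨c1, c2, c3, c4, -⟩ := h3 V G
  intro K
  induction K with
  | nil =>
    intro a _ u hu
    have hu' : u = a := by simpa using hu
    subst hu'
    exact ⟨by simp, Relation.ReflTransGen.refl⟩
  | cons b K ih =>
    intro a h u hu
    rcases List.mem_cons.1 hu with rfl | hu
    · exact ⟨by simp, Relation.ReflTransGen.refl⟩
    · refine c2 _ a b u (c4 _ a b (by simp) (by simp) (h.2.1 b (by simp))) ?_
      refine c3 _ _ b u ?_ (ih b h.2.2.2 u hu)
      intro w hw
      exact List.mem_cons_of_mem _ hw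

theorem mnp_fst {V : Type} (φ : V → Prop) : ∀ (L : List V), (∃ v ∈ L, φ v) →
    ∃ L1 m L2, L = L1 ++ m :: L2 ∧ φ m ∧ ∀ u ∈ L1, ¬ φ u := by
  intro L
  induction L with
  | nil => rintro ⟨v, hv, _⟩; simp at hv
  | cons a L ih =>
    rintro ⟨v, hv, hφ⟩
    by_cases ha : φ a
    · exact ⟨[], a, L, by simp, ha, by simp⟩
    · have hv' : v ∈ L := by
        rcases List.mem_cons.1 hv with rfl | hv
        · exact absurd hφ ha
        · exact hv
      obtain ⟨L1, m, L2, e, hm, hL⟩ := ih ⟨v, hv', hφ⟩
      refine ⟨a :: L1, m, L2, by rw [e]; simp, hm, ?_⟩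
      intro u hu
      rcases List.mem_cons.1 hu with rfl | hu
      · exact ha
      · exact hL u hu

theorem mnp_lst {V : Type} (φ : V → Prop) (L : List V) (h : ∃ v ∈ L, φ v) :
    ∃ L1 m L2, L = L1 ++ m :: L2 ∧ φ m ∧ ∀ u ∈ L2, ¬ φ u := by
  obtain ⟨L1, m, L2, e, hm, hL⟩ := mnp_fst φ L.reverse (by simpa using h)
  refine ⟨L2.reverse, m, L1.reverse, ?_, hm, by simpa using hL⟩
  have := congrArg List.reverse e
  simpa using this

theorem st_MNP (h1 : ST_RAY) (h2 : ST_PTB) (h3 : ST_CNB) : ST_MNP := by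
  intro V _ G Q T hDF hCI hMQ hTQ x y z a b c hx hy hz hxy hxz hyz hT la lb lc hC
  obtain ⟨r1, r2, r3, -, -, -⟩ := h1 V G Q hDF hMQ
  obtain ⟨c1, c2, c3, c4, c5, -, -⟩ := h3 V G
  have hQa : ∀ x ∈ Q, ∀ y ∈ Q, x ≠ y → G.Adj x y := hMQ.1
  -- rays
  have ray : ∀ p ∈ Q, ∀ u ∈ T, G.Adj p u → RayQ G Q p u := fun p hp u hu h => ⟨hp, h, hTQ u hu⟩
  have rfar : ∀ p ∈ Q, ∀ q ∈ Q, q ≠ p → ∀ u ∈ T, G.Adj p u → u ∈ Far G q :=
    fun p hp q hq hne u hu h => (r1 p u q (ray p hp u hu h) hq hne).1
  have hac : a ≠ c := fun e => hxz (r2 x z a (ray x hx a hT.aT hT.xa)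
    (by rw [e]; exact ray z hz c hT.cT hT.zc))
  have hbc : b ≠ c := fun e => hyz (r2 y z b (ray y hy b hT.bT hT.yb)
    (by rw [e]; exact ray z hz c hT.cT hT.zc))
  -- the path
  have ipa : IPt G (c :: (la ++ [a])) := by
    rcases hC.pa with ⟨e, -⟩ | ⟨-, h⟩
    · exact absurd e.symm hac
    · exact h
  have ipb : IPt G (c :: (lb ++ [b])) := by
    rcases hC.pb with ⟨e, -⟩ | ⟨-, h⟩
    · exact absurd e.symm hbc
    · exact h
  have ipL := mnp_glue G (la ++ [a]) c (lb ++ [b]) ipa ipb (by
    intro u hu v hv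
    refine hC.ab u ?_ v ?_
    · rcases List.mem_append.1 hu with hu | hu
      · exact Or.inl hu
      · exact Or.inr ⟨by simpa using hu, hac⟩
    · rcases List.mem_append.1 hv with hv | hv
      · exact Or.inl hv
      · exact Or.inr ⟨by simpa using hv, hbc⟩)
  obtain ⟨L, hL⟩ : ∃ L, L = (la ++ [a]).reverse ++ c :: (lb ++ [b]) := ⟨_, rfl⟩
  rw [← hL] at ipL
  have hLa : ∃ K, L = a :: K := ⟨la.reverse ++ c :: (lb ++ [b]), by rw [hL]; simp⟩
  have hLb : ∃ K, L = K ++ [b] := ⟨(la ++ [a]).reverse ++ c :: lb, by rw [hL]; simp⟩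
  have hcL : c ∈ L := by rw [hL]; simp
  have hLT : ∀ u ∈ L, u ∈ T := by
    intro u hu
    rw [hL] at hu
    simp only [List.reverse_append, List.reverse_cons, List.reverse_nil, List.nil_append,
      List.cons_append, List.mem_cons, List.mem_append, List.mem_reverse,
      List.not_mem_nil, or_false] at hu
    refine hC.inS u ?_
    tauto
  clear hL
  obtain ⟨Ka, hKa⟩ := hLa
  obtain ⟨Kb, hKb⟩ := hLb
  have haL : a ∈ L := by rw [hKa]; simp
  have hbL : b ∈ L := by rw [hKb]; simp
  have hab : a ≠ b := fun e => hxy (r2 x y a (ray x hx a hT.aT hT.xa)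
    (by rw [e]; exact ray y hy b hT.bT hT.yb))
  -- connectedness of members
  have conn : ∀ (M : List V), IPt G M → ∀ u ∈ M, ∀ v ∈ M, Cn G {w | w ∈ M} u v := by
    intro M hM u hu v hv
    cases M with
    | nil => simp at hu
    | cons e M =>
      exact c2 _ u e v (c1 _ e u (mnp_con G h3 M e hM u hu)).2 (mnp_con G h3 M e hM v hv)
  -- T is the path
  have hTL : ∀ u, u ∈ T ↔ u ∈ L := by
    have e := hT.min {w | w ∈ L} hLT a b c hT.xa hT.yb hT.zc (conn L ipL a haL b hbL)
      (conn L ipL a haL c hcL)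
    intro u
    rw [← e]
    rfl
  -- uniqueness of the neighbours of x and y
  have ux : ∀ v ∈ T, G.Adj x v → v = a := by
    intro v hv hxv
    by_contra hne
    have hvK : v ∈ Ka := by
      have := (hTL v).1 hv
      rw [hKa] at this
      rcases List.mem_cons.1 this with h | h
      · exact absurd h hne
      · exact h
    have hbK : b ∈ Ka := by
      rw [hKa] at hbL
      rcases List.mem_cons.1 hbL with h | h
      · exact absurd h.symm hab
      · exact h
    have hcK : c ∈ Ka := by
      rw [hKa] at hcL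
      rcases List.mem_cons.1 hcL with h | h
      · exact absurd h.symm hac
      · exact h
    have ipK : IPt G Ka := by rw [hKa] at ipL; exact ipL.2.2.2
    have e := hT.min {w | w ∈ Ka} (fun u hu => hLT u (by rw [hKa]; exact List.mem_cons_of_mem _ hu))
      v b c hxv hT.yb hT.zc (conn Ka ipK v hvK b hbK) (conn Ka ipK v hvK c hcK)
    have haK : a ∈ {w | w ∈ Ka} := by rw [e]; exact hT.aT
    rw [hKa] at ipL
    exact ipL.1 a haK rfl
  have uy : ∀ v ∈ T, G.Adj y v → v = b := by
    intro v hv hyv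
    by_contra hne
    have mK : ∀ u ∈ L, u ≠ b → u ∈ Kb := by
      intro u hu hub
      rw [hKb] at hu
      rcases List.mem_append.1 hu with h | h
      · exact h
      · exact absurd (by simpa using h) hub
    have hvK : v ∈ Kb := mK v ((hTL v).1 hv) hne
    have haK : a ∈ Kb := mK a haL hab
    have hcK : c ∈ Kb := mK c hcL (Ne.symm hbc)
    have ap := mnp_app G Kb [b] (by rw [← hKb]; exact ipL)
    have e := hT.min {w | w ∈ Kb} (fun u hu => hLT u (by rw [hKb]; exact List.mem_append_left _ hu))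
      a v c hT.xa hyv hT.zc (conn Kb ap.1 a haK v hvK) (conn Kb ap.1 a haK c hcK)
    have hbK : b ∈ {w | w ∈ Kb} := by rw [e]; exact hT.bT
    exact (ap.2.2.1 b hbK b (by simp)).1 rfl
  -- final assembly
  have fin : ∀ (L1 L4 : List V) (m m' : V), IPt G L1 → IPt G L4 → (∀ u ∈ L1, u ∈ L) →
      (∀ u ∈ L4, u ∈ L) → m ∈ L → m' ∈ L → G.Adj z m → G.Adj z m' →
      (∀ u ∈ L1, ¬ G.Adj z u) → (∀ u ∈ L4, ¬ G.Adj z u) →
      (∃ K, L1 = a :: K) → (∃ K, L4 = K ++ [b]) →
      (∀ u ∈ L1, u ≠ m ∧ (G.Adj u m → L1.getLast? = some u)) →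
      (∀ u, L1.getLast? = some u → G.Adj u m) →
      (∀ u ∈ L4, m' ≠ u ∧ (G.Adj m' u → L4.head? = some u)) →
      (∀ u, L4.head? = some u → G.Adj m' u) →
      (∀ u ∈ L1, ∀ v ∈ L4, u ≠ v ∧ ¬ G.Adj u v) →
      (m = m' ∨ (G.Adj m m' ∧ (∀ u ∈ L1, u ≠ m' ∧ ¬ G.Adj u m') ∧
        ∀ u ∈ L4, m ≠ u ∧ ¬ G.Adj m u)) →
      ∃ a la a' b lb b' m m', TTp G T x y z a la a' b lb b' m m' := by
    intro L1 L4 m m' ip1 ip4 s1 s4 sm sm' zm zm' z1 z4 e1 e4 f1 g1 f4 g4 hA mm
    obtain ⟨K1, e1⟩ := e1
    obtain ⟨K4, e4⟩ := e4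
    have a1 : a ∈ L1 := by rw [e1]; simp
    have b4 : b ∈ L4 := by rw [e4]; simp
    obtain ⟨l, a', p1, q1, t1⟩ := mnp_pth G a K1 (by rw [← e1]; exact ip1)
    rw [← e1] at q1 t1
    have ir : IPt G (b :: K4.reverse) := by
      have e : b :: K4.reverse = L4.reverse := by rw [e4]; simp
      rw [e]
      cases hL4 : L4 with
      | nil => rw [hL4] at b4; simp at b4
      | cons w W =>
        have := mnp_glue G W w [] (by rw [← hL4]; exact ip4)
          ⟨by simp, by simp, by simp, trivial⟩ (by simp)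
        simpa using this
    obtain ⟨l', b', p4, q4, t4⟩ := mnp_pth G b K4.reverse ir
    have e4r : b :: K4.reverse = L4.reverse := by rw [e4]; simp
    rw [e4r] at q4 t4
    have q4' : ∀ u, u ∈ PV b l' b' ↔ u ∈ L4 := fun u => by rw [q4 u]; simp
    have t4' : L4.head? = some b' := by
      rw [List.getLast?_reverse] at t4
      exact t4
    have tT : ∀ u ∈ L, u ∈ T := fun u hu => (hTL u).2 hu
    have nq : ∀ u ∈ L, ∀ p ∈ Q, u ≠ p := fun u hu p hp e => hTQ u (tT u hu) (by rw [e]; exact hp)
    refine ⟨a, l, a', b, l', b', m, m', ⟨p1, hT.xa, (g1 a' t1).symm, ?_, ?_⟩,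
      ⟨p4, hT.yb, g4 b' t4', ?_, ?_⟩, ?_, ?_, ?_, ?_, ?_, ?_, zm, zm', ?_, ?_, ?_⟩
    · intro u hu
      have hu' := (q1 u).1 hu
      exact ⟨nq u (s1 u hu') x hx, fun h => ux u (tT u (s1 u hu')) h⟩
    · intro u hu
      have hu' := (q1 u).1 hu
      refine ⟨(f1 u hu').1, fun h => ?_⟩
      have := (f1 u hu').2 h.symm
      rw [t1] at this
      exact (Option.some.inj this).symm
    · intro u hu
      have hu' := (q4' u).1 hu
      exact ⟨nq u (s4 u hu') y hy, fun h => uy u (tT u (s4 u hu')) h⟩
    · intro u hu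
      have hu' := (q4' u).1 hu
      refine ⟨(f4 u hu').1.symm, fun h => ?_⟩
      have := (f4 u hu').2 h
      rw [t4'] at this
      exact (Option.some.inj this).symm
    · intro u hu
      have hu' := (q1 u).1 hu
      refine ⟨nq u (s1 u hu') y hy, fun h => ?_⟩
      have := uy u (tT u (s1 u hu')) h
      rw [this] at hu'
      exact (hA b hu' b b4).1 rfl
    · intro u hu
      have hu' := (q1 u).1 hu
      exact ⟨nq u (s1 u hu') z hz, z1 u hu'⟩
    · intro u hu
      have hu' := (q4' u).1 hu
      refine ⟨nq u (s4 u hu') x hx, fun h => ?_⟩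
      have := ux u (tT u (s4 u hu')) h
      rw [this] at hu'
      exact (hA a a1 a hu').1 rfl
    · intro u hu
      have hu' := (q4' u).1 hu
      exact ⟨nq u (s4 u hu') z hz, z4 u hu'⟩
    · intro u hu v hv
      exact hA u ((q1 u).1 hu) v ((q4' v).1 hv)
    · rcases mm with e | ⟨h, h', h''⟩
      · exact Or.inl e
      · refine Or.inr ⟨h, ?_, ?_⟩
        · intro u hu
          have := h' u ((q1 u).1 hu)
          exact ⟨this.1, fun k => this.2 k.symm⟩
        · intro u hu
          have := h'' u ((q4' u).1 hu)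
          exact ⟨this.1.symm, this.2⟩
    · exact ⟨rfar z hz x hx hxz m (tT m sm) zm, rfar z hz y hy hyz m (tT m sm) zm⟩
    · exact ⟨rfar z hz x hx hxz m' (tT m' sm') zm', rfar z hz y hy hyz m' (tT m' sm') zm'⟩
    · exact ⟨fun u hu => tT u (s1 u ((q1 u).1 hu)), fun u hu => tT u (s4 u ((q4' u).1 hu)),
        tT m sm, tT m' sm'⟩
  -- first neighbour of z
  obtain ⟨L1, m, L2, eL, zm, z1⟩ := mnp_fst (fun v => G.Adj z v) L ⟨c, hcL, hT.zc⟩
  have mL : m ∈ L := by rw [eL]; simp
  have mT : m ∈ T := hLT m mL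
  have ma : m ≠ a := fun e => hxz (r2 x z m (by rw [e]; exact ray x hx a hT.aT hT.xa)
    (ray z hz m mT zm))
  have e1 : ∃ K, L1 = a :: K := by
    cases L1 with
    | nil =>
      rw [hKa] at eL
      simp only [List.nil_append, List.cons.injEq] at eL
      exact absurd eL.1.symm ma
    | cons w W =>
      rw [hKa] at eL
      simp only [List.cons_append, List.cons.injEq] at eL
      exact ⟨W, by rw [eL.1]⟩
  have a1 : a ∈ L1 := by
    obtain ⟨K, e⟩ := e1
    rw [e]; simp
  have ap1 := mnp_app G L1 (m :: L2) (by rw [← eL]; exact ipL)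
  have lastb : ∀ (A : List V) (v : V) (B : List V), L = A ++ v :: B → v ≠ b →
      ∃ K, B = K ++ [b] := by
    intro A v B e hv
    rcases List.eq_nil_or_concat B with rfl | ⟨W, w, rfl⟩
    · exfalso
      have h5 : L.getLast? = some v := by rw [e]; simp
      have h6 : L.getLast? = some b := by rw [hKb]; simp
      rw [h5] at h6
      exact hv (Option.some.inj h6)
    · have h5 : L.getLast? = some w := by
        rw [e, show A ++ v :: W.concat w = (A ++ v :: W) ++ [w] by simp]
        exact List.getLast?_concat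
      have h6 : L.getLast? = some b := by rw [hKb]; simp
      rw [h5] at h6
      exact ⟨W, by rw [Option.some.inj h6]; simp⟩
  have zb : ∀ v ∈ T, G.Adj z v → v ≠ b := fun v hv h e => hyz (r2 y z v
    (by rw [e]; exact ray y hy b hT.bT hT.yb) (ray z hz v hv h))
  by_cases hl : ∃ v ∈ L2, G.Adj z v
  · obtain ⟨L3, m', L4, e2, zm', z4⟩ := mnp_lst (fun v => G.Adj z v) L2 hl
    have m'L : m' ∈ L := by rw [eL, e2]; simp
    have m'T : m' ∈ T := hLT m' m'L
    have e4 := lastb (L1 ++ m :: L3) m' L4 (by rw [eL, e2]; simp) (zb m' m'T zm')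
    have b4 : b ∈ L4 := by
      obtain ⟨K, e⟩ := e4
      rw [e]; simp
    have ap2 := mnp_app G (L1 ++ m :: L3) (m' :: L4) (by
      have : (L1 ++ m :: L3) ++ m' :: L4 = L := by rw [eL, e2]; simp
      rw [this]; exact ipL)
    have ap3 := mnp_app G (L1 ++ [m]) (L3 ++ m' :: L4) (by
      have : (L1 ++ [m]) ++ (L3 ++ m' :: L4) = L := by rw [eL, e2]; simp
      rw [this]; exact ipL)
    have ap4 := mnp_app G (L1 ++ m :: (L3 ++ [m'])) L4 (by
      have : (L1 ++ m :: (L3 ++ [m'])) ++ L4 = L := by rw [eL, e2]; simp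
      rw [this]; exact ipL)
    have ap5 := mnp_app G L1 (m :: (L3 ++ [m'])) ap4.1
    cases L3 with
    | nil =>
      refine fin L1 L4 m m' ap1.1 ap4.2.1 (fun u hu => by rw [eL]; simp [hu])
        (fun u hu => by rw [eL, e2]; simp [hu]) mL m'L zm zm' z1 z4 e1 e4 ?_ ?_ ?_ ?_ ?_ ?_
      · intro u hu
        exact ⟨(ap1.2.2.1 u hu m (by simp)).1, fun h => ((ap1.2.2.1 u hu m (by simp)).2 h).1⟩
      · intro u hu
        exact ap1.2.2.2 u m hu (by simp)
      · intro u hu
        have := ap4.2.2.1 m' (by simp) u hu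
        exact ⟨this.1, fun h => (this.2 h).2⟩
      · intro u hu
        exact ap4.2.2.2 m' u (by simp) hu
      · intro u hu v hv
        have := ap1.2.2.1 u hu v (by rw [e2]; simp [hv])
        refine ⟨this.1, fun h => ?_⟩
        have h7 := (this.2 h).2
        simp only [List.head?_cons] at h7
        have h8 := Option.some.inj h7
        exact (ap4.2.2.1 m (by simp) v hv).1 h8
      · refine Or.inr ⟨?_, ?_, ?_⟩
        · exact ap3.2.2.2 m m' (by simp) (by simp)
        · intro u hu
          have := ap1.2.2.1 u hu m' (by rw [e2]; simp)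
          refine ⟨this.1, fun h => ?_⟩
          have h7 := (this.2 h).2
          simp only [List.head?_cons] at h7
          have h8 := Option.some.inj h7
          exact (ap3.2.2.1 m (by simp) m' (by simp)).1 h8
        · intro u hu
          have := ap3.2.2.1 m (by simp) u (by simp [hu])
          refine ⟨this.1, fun h => ?_⟩
          have h7 := (this.2 h).2
          simp only [List.nil_append, List.head?_cons] at h7
          have h8 := Option.some.inj h7
          exact (ap2.2.1).1 u hu h8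
    | cons w W =>
      exfalso
      have mm' : m' ∈ Far G m := by
        have := ap3.2.2.1 m (by simp) m' (by simp)
        refine ⟨this.1.symm, fun h => ?_⟩
        have h7 := (this.2 h).2
        simp only [List.cons_append, List.head?_cons] at h7
        have h8 := Option.some.inj h7
        exact (ap2.2.2.1 w (by simp) m' (by simp)).1 h8
      have mFm' : m ∈ Far G m' := ⟨mm'.1.symm, fun h => mm'.2 h.symm⟩
      have xm : x ∈ Far G m := by
        have := rfar z hz x hx hxz m mT zm
        exact ⟨this.1.symm, fun h => this.2 h.symm⟩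
      have ym : y ∈ Far G m := by
        have := rfar z hz y hy hyz m mT zm
        exact ⟨this.1.symm, fun h => this.2 h.symm⟩
      have xm' : x ∈ Far G m' := by
        have := rfar z hz x hx hxz m' m'T zm'
        exact ⟨this.1.symm, fun h => this.2 h.symm⟩
      have L1m' : ∀ u ∈ L1 ++ [m], u ∈ Far G m' := by
        intro u hu
        have := ap3.2.2.1 u hu m' (by simp)
        refine ⟨this.1, fun h => ?_⟩
        have h7 := (this.2 h.symm).2
        simp only [List.cons_append, List.head?_cons] at h7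
        have h8 := Option.some.inj h7
        exact (ap2.2.2.1 w (by simp) m' (by simp)).1 h8
      have L4m : ∀ u ∈ m' :: L4, u ∈ Far G m := by
        intro u hu
        have := ap3.2.2.1 m (by simp) u (by
          simp only [List.cons_append, List.mem_cons, List.mem_append]
          exact Or.inr (Or.inr (by simpa using hu)))
        refine ⟨this.1.symm, fun h => ?_⟩
        have h7 := (this.2 h).2
        simp only [List.cons_append, List.head?_cons] at h7
        have h8 := Option.some.inj h7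
        exact (ap2.2.2.1 w (by simp) u hu).1 h8
      have Lx : ∀ u ∈ m :: (w :: W ++ [m']), u ∈ Far G x := by
        intro u hu
        have uL : u ∈ L := by
          rw [eL, e2]
          simp only [List.mem_append, List.mem_cons, List.cons_append, List.not_mem_nil,
            or_false] at hu ⊢
          tauto
        refine ⟨fun e => hTQ u (hLT u uL) (by rw [e]; exact hx), fun h => ?_⟩
        have h9 := ux u (hLT u uL) h
        exact (ap5.2.2.1 a a1 u hu).1 h9.symm
      refine hCI ⟨z, x, m, m', hQa z hz x hx (Ne.symm hxz), zm, zm', ?_, ?_, ?_⟩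
      · rw [c5]
        refine c2 _ x a m (c4 _ x a xm' (L1m' a (by simp [a1])) hT.xa) ?_
        exact c3 _ _ a m (fun u hu => L1m' u hu)
          (conn (L1 ++ [m]) ap3.1 a (by simp [a1]) m (by simp))
      · rw [c5]
        exact c3 _ _ m m' (fun u hu => Lx u hu)
          (conn (m :: (w :: W ++ [m'])) ap5.2.1 m (by simp) m' (by simp))
      · rw [c5]
        refine c2 _ x y m' (c4 _ x y xm ym (hQa x hx y hy hxy)) ?_
        refine c2 _ y b m' (c4 _ y b ym (L4m b (by simp [b4])) hT.yb) ?_
        exact c3 _ _ b m' (fun u hu => L4m u hu)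
          (conn (m' :: L4) ap2.2.1 b (by simp [b4]) m' (by simp))
  · have z2 : ∀ u ∈ L2, ¬ G.Adj z u := fun u hu h => hl ⟨u, hu, h⟩
    have e4 := lastb L1 m L2 eL (zb m mT zm)
    have ap6 := mnp_app G (L1 ++ [m]) L2 (by
      have : (L1 ++ [m]) ++ L2 = L := by rw [eL]; simp
      rw [this]; exact ipL)
    refine fin L1 L2 m m ap1.1 ap6.2.1 (fun u hu => by rw [eL]; simp [hu])
      (fun u hu => by rw [eL]; simp [hu]) mL mL zm zm z1 z2 e1 e4 ?_ ?_ ?_ ?_ ?_ (Or.inl rfl)
    · intro u hu
      exact ⟨(ap1.2.2.1 u hu m (by simp)).1, fun h => ((ap1.2.2.1 u hu m (by simp)).2 h).1⟩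
    · intro u hu
      exact ap1.2.2.2 u m hu (by simp)
    · intro u hu
      have := ap6.2.2.1 m (by simp) u hu
      exact ⟨this.1, fun h => (this.2 h).2⟩
    · intro u hu
      exact ap6.2.2.2 m u (by simp) hu
    · intro u hu v hv
      have := ap1.2.2.1 u hu v (by simp [hv])
      refine ⟨this.1, fun h => ?_⟩
      have h7 := (this.2 h).2
      simp only [List.head?_cons] at h7
      have h8 := Option.some.inj h7
      exact (ap6.2.2.1 m (by simp) v hv).1 h8

end Pool.Agent.Helper64.FL
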