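import Pool.Agent.Helper64.FL.StH

/-! Full list for MP_866009_co: existence of necklaces. -/

set_option autoImplicit false

namespace Pool.Agent.Helper64.FL

open Pool.Agent.Helper64.CT Pool.Agent.Helper64.DT
open Pool.Agent.Helper64.HG (Ovl Model Circ IC HellyCircle ChordModel)

theorem st_NKX (_h1 : ST_CNB) (h2 : ST_SEP) (h3 : ST_LKX) (h4 : ST_PTB) (_h5 : ST_SHF) :
    ST_NKX := by
  intro V G x k y hM hD
  have hk := hM.k5
  -- periodicity
  have hper : ∀ i t, y (i + t * k) = y i := by
    intro i t
    induction t with
    | zero => simp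
    | succ t ih =>
      rw [Nat.succ_mul, ← Nat.add_assoc, hM.per, ih]
  have hmod : ∀ i s, y (i % k + s) = y (i + s) := by
    intro i s
    have h := hper (i % k + s) (i / k)
    rw [← h]
    congr 1
    have := Nat.mod_add_div i k
    rw [Nat.mul_comm] at this
    omega
  -- common attachments
  have hn0 : ∀ i, ∃ n, n ∈ Att G x (y i) ∧ n ∈ Att G x (y (i + 1)) := by
    intro i
    obtain ⟨_, ⟨u, hu, ⟨n, hn, hun⟩, _⟩, _⟩ := hM.cf i
    exact ⟨n, ⟨hn.1, u, hu, hun.symm⟩, hn⟩
  choose n0 hn0a hn0b using hn0
  -- links
  have hlk : ∀ (a b w : V), a ∈ Att G x w → b ∈ Att G x w → ∃ Q : List V, Q ≠ [] ∧ IPt G Q ∧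
      (∀ u ∈ Q, Comp G x w u) ∧ (∀ u ∈ Q, (G.Adj a u ↔ Q.head? = some u)) ∧
      ∀ u ∈ Q, (G.Adj b u ↔ Q.getLast? = some u) := by
    intro a b w ha hb
    obtain ⟨l, L, r, hL⟩ := h3 V G x w a b ha hb
    have hnd := (h4 V G).2.1 l L r hL.pth
    rcases hL.pth with ⟨e1, e2⟩ | ⟨e1, e2⟩
    · subst e1
      refine ⟨[l], by simp, ⟨?_, ?_, ?_, trivial⟩, ?_, ?_, ?_⟩
      · intro u hu; simp at hu
      · intro u hu; simp at hu
      · intro u hu; simp at hu
      · intro u hu
        have : u = l := by simpa using hu
        rw [this]; exact hL.lK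
      · intro u hu
        have : u = l := by simpa using hu
        rw [this]
        exact ⟨fun _ => rfl, fun _ => hL.la.symm⟩
      · intro u hu
        have : u = l := by simpa using hu
        rw [this]
        exact ⟨fun _ => rfl, fun _ => hL.rb.symm⟩
    · have hlast : (l :: (L ++ [r])).getLast? = some r := by
        rw [← List.cons_append, List.getLast?_append]
        simp
      refine ⟨l :: (L ++ [r]), by simp, e2, ?_, ?_, ?_⟩
      · intro u hu
        rcases List.mem_cons.1 hu with h | h
        · rw [h]; exact hL.lK
        · rcases List.mem_append.1 h with h | h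
          · exact hL.LK u h
          · have : u = r := by simpa using h
            rw [this]; exact hL.rK
      · intro u hu
        rcases List.mem_cons.1 hu with h | h
        · rw [h]
          exact ⟨fun _ => rfl, fun _ => hL.la.symm⟩
        · have hne : l ≠ u := e2.1 u h
          refine ⟨fun h5 => ?_, fun h5 => ?_⟩
          · exfalso
            rcases List.mem_append.1 h with h | h
            · exact (hL.Lab u h).1 h5.symm
            · have : u = r := by simpa using h
              rw [this] at h5
              exact (hL.lr e1).2 h5.symm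
          · exact absurd (Option.some.inj h5) hne
      · intro u hu
        rw [hlast]
        rcases List.mem_cons.1 hu with h | h
        · rw [h]
          refine ⟨fun h5 => absurd h5.symm (hL.lr e1).1, fun h5 => ?_⟩
          exact absurd (Option.some.inj h5).symm e1
        · rcases List.mem_append.1 h with h | h
          · refine ⟨fun h5 => absurd h5.symm (hL.Lab u h).2, fun h5 => ?_⟩
            have h6 := Option.some.inj h5
            rw [← h6] at h
            exact absurd h hnd.2.1
          · have : u = r := by simpa using h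
            rw [this]
            exact ⟨fun _ => rfl, fun _ => hL.rb.symm⟩
  -- the vertices
  set n : ℕ → V := fun i => n0 (i % k) with hn
  have hna : ∀ i, n i ∈ Att G x (y i) := by
    intro i
    have h := hn0a (i % k)
    have h5 := hmod i 0
    simp only [Nat.add_zero] at h5
    rw [h5] at h
    exact h
  have hnb : ∀ i, n i ∈ Att G x (y (i + 1)) := by
    intro i
    have h := hn0b (i % k)
    rw [hmod i 1] at h
    exact h
  have hP0 := fun i => hlk (n i) (n (i + 1)) (y (i + 1)) (hnb i) (hna (i + 1))
  choose P0 q1 q2 q3 q4 q5 using hP0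
  have hnm : ∀ i s, n (i % k + s) = n (i + s) := by
    intro i s
    show n0 ((i % k + s) % k) = n0 ((i + s) % k)
    rw [Nat.mod_add_mod]
  have hnm0 : ∀ i, n (i % k) = n i := fun i => hnm i 0
  -- nonconsecutive
  have hA : ∀ j d, 2 ≤ d → d < k → n j ∉ Att G x (y (j + d)) := by
    intro j d hd1 hd2
    by_cases h : d + 2 ≤ k
    · exact hD j (j + d) (by omega) (by omega) (n j) (hna j)
    · exact hD (j + 1) (j + d) (by omega) (by omega) (n j) (hnb j)
  refine ⟨n, fun i => P0 (i % k), hk, ?_, ?_, ?_⟩
  · intro i
    show n0 ((i + k) % k) = n0 (i % k)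
    rw [Nat.add_mod_right]
  · intro i
    show P0 ((i + k) % k) = P0 (i % k)
    rw [Nat.add_mod_right]
  · intro a
    have hc : ∀ i, ∀ u ∈ P0 (i % k), Comp G x (y (i + 1)) u := by
      intro i u hu
      have h := q3 (i % k) u hu
      rw [hmod i 1] at h
      exact h
    refine ⟨by omega, ?_, ?_, ?_, ?_, ?_, ?_, ?_, ?_, ?_⟩
    · intro i _ _
      exact (hna i).1
    · intro i j _ hij hj he
      by_cases h : j = i + 1
      · have h5 := hA i 2 (le_refl _) (by omega)
        apply h5
        rw [he, h]
        exact hnb (i + 1)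
      · have h5 := hA i (j - i) (by omega) (by omega)
        apply h5
        rw [he, show i + (j - i) = j by omega]
        exact hna j
    · intro i _ _
      exact q1 (i % k)
    · intro i _ _
      exact q2 (i % k)
    · intro i _ _ u hu
      obtain ⟨_, h6, _⟩ := hc i u hu
      exact h6
    · intro i _ _ u hu
      have h := q4 (i % k) u hu
      rw [hnm0] at h
      exact h
    · intro i _ _ u hu
      have h := q5 (i % k) u hu
      rw [hnm] at h
      exact h
    · intro i j hi1 hi2 hj1 hj2 hj3 hj4 u hu h
      have h6 : n j ∈ Att G x (y (i + 1)) := ⟨(hna j).1, u, hc i u hu, h⟩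
      rcases Nat.lt_or_ge j i with h7 | h7
      · have h8 := hA j (i + 1 - j) (by omega) (by omega)
        rw [show j + (i + 1 - j) = i + 1 by omega] at h8
        exact h8 h6
      · have h8 := hA j (i + 1 + k - j) (by omega) (by omega)
        rw [show j + (i + 1 + k - j) = i + 1 + k by omega, hM.per] at h8
        exact h8 h6
    · intro i j hi1 hij hj u hu w hw
      have h6 := hM.ncm (i + 1) (j + 1) (by omega) (by omega)
      exact h2 V G x _ _ h6 u (hc i u hu) w (hc j w hw)

end Pool.Agent.Helper64.FL
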