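import Pool.Agent.Helper64.FL.StG

/-! QI0: the second component splits `p`, `p'`. -/

set_option autoImplicit false

namespace Pool.Agent.Helper64.FL

open Pool.Agent.Helper64.CT Pool.Agent.Helper64.DT
open Pool.Agent.Helper64.HG (Ovl Model Circ IC HellyCircle ChordModel)

theorem qi0_far {V : Type} {G : SimpleGraph V} {x y u : V} (h : u ∈ KC G x y) :
    x ≠ u ∧ ¬ G.Adj x u := by
  obtain ⟨-, hz, -⟩ := h
  exact ⟨fun e => hz.1 e.symm, hz.2⟩

theorem qi0_pth {V : Type} {G : SimpleGraph V} {a w : V} {l : List V} (h : Pth G a l w)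
    (hne : a ≠ w) : IPt G (a :: (l ++ [w])) := by
  rcases h with ⟨h, -⟩ | ⟨-, h⟩
  · exact absurd h hne
  · exact h

theorem qi0_tri {V : Type} {G : SimpleGraph V} {a w : V} {l : List V} (h : Pth G a l w)
    (he : a = w) : l = [] := by
  rcases h with ⟨-, h⟩ | ⟨h, -⟩
  · exact h
  · exact absurd he h

theorem st_QI0 (hS : ST_SEP) (hB : ST_PTB) : ST_QI0 := by
  intro V G hN x y1 y2 y3 p p' q t w z Lz r hA L e Le e' hL he
  obtain ⟨-, hPn, -⟩ := hB V G
  have A12 := hS V G x y1 y2 hA.c12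
  have A13 := hS V G x y1 y3 hA.c13
  have A23 := hS V G x y2 y3 hA.c23
  have tK := hA.tK
  have wK := hA.wK
  have zK := hA.zr.lK
  have rK := hA.zr.rK
  obtain ⟨eK, e'K, LeK, pe⟩ : e ∈ KC G x y2 ∧ e' ∈ KC G x y2 ∧ (∀ u ∈ Le, u ∈ KC G x y2) ∧
      Pth G e Le e' := by
    rcases he with ⟨-, -, h⟩ | ⟨-, -, h⟩ <;> exact ⟨h.lK, h.rK, h.LK, h.pth⟩
  have LK := hL.LK
  have LzK := hA.zr.LK
  -- vertices adjacent to x are outside the components
  have nadj : ∀ {s u y : V}, G.Adj x s → u ∈ KC G x y → u ≠ s := by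
    intro s u y hs hu h
    rw [h] at hu
    exact (qi0_far hu).2 hs
  have qK2 : ∀ u ∈ KC G x y2, ¬ G.Adj u q := fun u hu h =>
    hA.q2 ⟨hA.xq, u, hu, h.symm⟩
  -- edges
  have e01 := hA.xp
  have e02 := hA.xp'
  have e03 := hA.xq
  have e41 := hA.tp
  have e42 := hA.tp'
  have e51 := hA.wp
  have e73 := hA.zr.rb
  -- different vertices
  have n12 : p ≠ p' := fun h => hA.wp' (h ▸ hA.wp)
  have n13 : p ≠ q := fun h => hA.tq (h ▸ hA.tp)
  have n23 : p' ≠ q := fun h => hA.tq (h ▸ hA.tp')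
  -- nonadjacent pairs
  have d04 := qi0_far tK
  have d05 := qi0_far wK
  have d06 := qi0_far zK
  have d07 := qi0_far rK
  have d08 := qi0_far eK
  have d09 := qi0_far e'K
  have d43 : t ≠ q ∧ ¬ G.Adj t q := ⟨nadj hA.xq tK, hA.tq⟩
  have d52 : w ≠ p' ∧ ¬ G.Adj w p' := ⟨nadj hA.xp' wK, hA.wp'⟩
  have d64 : z ≠ t ∧ ¬ G.Adj z t := ⟨(A13 t tK z zK).1.symm, fun h => (A13 t tK z zK).2 h.symm⟩
  have d65 : z ≠ w ∧ ¬ G.Adj z w := ⟨(A13 w wK z zK).1.symm, fun h => (A13 w wK z zK).2 h.symm⟩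
  have d74 : r ≠ t ∧ ¬ G.Adj r t := ⟨(A13 t tK r rK).1.symm, fun h => (A13 t tK r rK).2 h.symm⟩
  have d75 : r ≠ w ∧ ¬ G.Adj r w := ⟨(A13 w wK r rK).1.symm, fun h => (A13 w wK r rK).2 h.symm⟩
  have d84 : e ≠ t ∧ ¬ G.Adj e t := ⟨(A12 t tK e eK).1.symm, fun h => (A12 t tK e eK).2 h.symm⟩
  have d85 : e ≠ w ∧ ¬ G.Adj e w := ⟨(A12 w wK e eK).1.symm, fun h => (A12 w wK e eK).2 h.symm⟩
  have d94 : e' ≠ t ∧ ¬ G.Adj e' t :=
    ⟨(A12 t tK e' e'K).1.symm, fun h => (A12 t tK e' e'K).2 h.symm⟩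
  have d95 : e' ≠ w ∧ ¬ G.Adj e' w :=
    ⟨(A12 w wK e' e'K).1.symm, fun h => (A12 w wK e' e'K).2 h.symm⟩
  have d86 := A23 e eK z zK
  have d87 := A23 e eK r rK
  have d96 := A23 e' e'K z zK
  have d97 := A23 e' e'K r rK
  have d83 : e ≠ q ∧ ¬ G.Adj e q := ⟨nadj hA.xq eK, qK2 e eK⟩
  have d93 : e' ≠ q ∧ ¬ G.Adj e' q := ⟨nadj hA.xq e'K, qK2 e' e'K⟩
  -- vertices not on the paths
  obtain ⟨zLz, rLz, -⟩ := hPn z Lz r hA.zr.pth
  obtain ⟨eLe, e'Le, -⟩ := hPn e Le e' pe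
  obtain ⟨tL, wL, -⟩ := hPn t L w hL.pth
  have htw : t ≠ w := fun h => hA.wp' (h ▸ hA.tp')
  have nz : ∀ {s : V}, G.Adj x s → s ∉ Lz := fun hs hm => nadj hs (LzK _ hm) rfl
  have ne' : ∀ {s : V}, G.Adj x s → s ∉ Le := fun hs hm => nadj hs (LeK _ hm) rfl
  have nt : ∀ {s : V}, G.Adj x s → s ∉ L := fun hs hm => nadj hs (LK _ hm) rfl
  have z0 : x ∉ Lz := fun hm => (qi0_far (LzK _ hm)).1 rfl
  have f0 : x ∉ Le := fun hm => (qi0_far (LeK _ hm)).1 rfl
  have t0 : x ∉ L := fun hm => (qi0_far (LK _ hm)).1 rfl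
  have z1 : p ∉ Lz := nz hA.xp
  have z2 : p' ∉ Lz := nz hA.xp'
  have z3 : q ∉ Lz := nz hA.xq
  have f1 : p ∉ Le := ne' hA.xp
  have f2 : p' ∉ Le := ne' hA.xp'
  have f3 : q ∉ Le := ne' hA.xq
  have t1 : p ∉ L := nt hA.xp
  have t2 : p' ∉ L := nt hA.xp'
  have t3 : q ∉ L := nt hA.xq
  have z4 : t ∉ Lz := fun hm => (A13 t tK t (LzK _ hm)).1 rfl
  have z5 : w ∉ Lz := fun hm => (A13 w wK w (LzK _ hm)).1 rfl
  have z8 : e ∉ Lz := fun hm => (A23 e eK e (LzK _ hm)).1 rfl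
  have z9 : e' ∉ Lz := fun hm => (A23 e' e'K e' (LzK _ hm)).1 rfl
  have f4 : t ∉ Le := fun hm => (A12 t tK t (LeK _ hm)).1 rfl
  have f5 : w ∉ Le := fun hm => (A12 w wK w (LeK _ hm)).1 rfl
  have f6 : z ∉ Le := fun hm => (A23 z (LeK _ hm) z zK).1 rfl
  have f7 : r ∉ Le := fun hm => (A23 r (LeK _ hm) r rK).1 rfl
  have t6 : z ∉ L := fun hm => (A13 z (LK _ hm) z zK).1 rfl
  have t7 : r ∉ L := fun hm => (A13 r (LK _ hm) r rK).1 rfl
  have t8 : e ∉ L := fun hm => (A12 e (LK _ hm) e eK).1 rfl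
  have t9 : e' ∉ L := fun hm => (A12 e' (LK _ hm) e' e'K).1 rfl
  -- clean paths
  have cz0 : ∀ u ∈ Lz, ¬ G.Adj x u := fun u hu => (qi0_far (LzK u hu)).2
  have cz3 : ∀ u ∈ Lz, ¬ G.Adj q u := fun u hu h => hA.zr.Lb u hu h.symm
  have cz4 : ∀ u ∈ Lz, ¬ G.Adj t u := fun u hu => (A13 t tK u (LzK u hu)).2
  have cz5 : ∀ u ∈ Lz, ¬ G.Adj w u := fun u hu => (A13 w wK u (LzK u hu)).2
  have cz8 : ∀ u ∈ Lz, ¬ G.Adj e u := fun u hu => (A23 e eK u (LzK u hu)).2
  have cz9 : ∀ u ∈ Lz, ¬ G.Adj e' u := fun u hu => (A23 e' e'K u (LzK u hu)).2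
  have ce0 : ∀ u ∈ Le, ¬ G.Adj x u := fun u hu => (qi0_far (LeK u hu)).2
  have ce3 : ∀ u ∈ Le, ¬ G.Adj q u := fun u hu h => qK2 u (LeK u hu) h.symm
  have ce4 : ∀ u ∈ Le, ¬ G.Adj t u := fun u hu => (A12 t tK u (LeK u hu)).2
  have ce5 : ∀ u ∈ Le, ¬ G.Adj w u := fun u hu => (A12 w wK u (LeK u hu)).2
  have ce6 : ∀ u ∈ Le, ¬ G.Adj z u := fun u hu h => (A23 u (LeK u hu) z zK).2 h.symm
  have ce7 : ∀ u ∈ Le, ¬ G.Adj r u := fun u hu h => (A23 u (LeK u hu) r rK).2 h.symm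
  have ct0 : ∀ u ∈ L, ¬ G.Adj x u := fun u hu => (qi0_far (LK u hu)).2
  have ct6 : ∀ u ∈ L, ¬ G.Adj z u := fun u hu h => (A13 u (LK u hu) z zK).2 h.symm
  have ct7 : ∀ u ∈ L, ¬ G.Adj r u := fun u hu h => (A13 u (LK u hu) r rK).2 h.symm
  have ct8 : ∀ u ∈ L, ¬ G.Adj e u := fun u hu h => (A12 u (LK u hu) e eK).2 h.symm
  have ct9 : ∀ u ∈ L, ¬ G.Adj e' u := fun u hu h => (A12 u (LK u hu) e' e'K).2 h.symm
  have sp : ([Lz, Le, L] : List (List V)).Pairwise
      (fun A B => ∀ x ∈ A, ∀ y ∈ B, x ≠ y ∧ ¬ G.Adj x y) := by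
    simp only [List.pairwise_cons, List.mem_cons, List.not_mem_nil, or_false, forall_eq_or_imp,
      forall_eq, List.Pairwise.nil, and_true, false_imp_iff, implies_true]
    refine ⟨⟨?_, ?_⟩, ?_⟩
    · intro u hu v hv
      have h := A23 v (LeK v hv) u (LzK u hu)
      exact ⟨h.1.symm, fun h' => h.2 h'.symm⟩
    · intro u hu v hv
      have h := A13 v (LK v hv) u (LzK u hu)
      exact ⟨h.1.symm, fun h' => h.2 h'.symm⟩
    · intro u hu v hv
      have h := A12 v (LK v hv) u (LeK u hu)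
      exact ⟨h.1.symm, fun h' => h.2 h'.symm⟩
  have cq : z ≠ r → z ≠ q ∧ ¬ G.Adj z q := fun h => ⟨nadj hA.xq zK, hA.zr.lr h⟩
  have pz : z ≠ r → IPt G (z :: (Lz ++ [r])) := qi0_pth hA.zr.pth
  have ptw : t ≠ w → IPt G (t :: (L ++ [w])) := qi0_pth hL.pth
  have pee : e ≠ e' → IPt G (e :: (Le ++ [e'])) := qi0_pth pe
  have qz : z = r → Lz = [] := qi0_tri hA.zr.pth
  have qtw : t = w → L = [] := qi0_tri hL.pth
  have qee : e = e' → Le = [] := qi0_tri pe
  rcases hA.zp with ⟨zp, zp'⟩ | ⟨zp', zp⟩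
  · have d62 : z ≠ p' ∧ ¬ G.Adj z p' := ⟨nadj hA.xp' zK, zp'⟩
    rcases he with ⟨ep, ep', hn⟩ | ⟨ep', ep, hn⟩
    · have d82 : e ≠ p' ∧ ¬ G.Adj e p' := ⟨nadj hA.xp' eK, ep'⟩
      have e92 := hn.rb
      have ce2 : ∀ u ∈ Le, ¬ G.Adj p' u := fun u hu h => hn.Lb u hu h.symm
      refine hN preIIAa0 (by simp [preBs]) (fun i => ([x, p, p', q, t, w, z, r, e, e'] : List V).getD i x)
        [Lz, Le, L] ⟨?_, ?_, ?_, ?_, ?_, rfl, ?_, ?_, ?_, ?_, sp⟩
      · intro y hy; fin_cases hy <;> assumption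
      · intro y hy; fin_cases hy <;> assumption
      · intro y hy; fin_cases hy <;> assumption
      · intro y hy; fin_cases hy; intro h; exact cq (h (6, 7) (by simp))
      · intro y hy; exact absurd hy (by simp [preIIAa0])
      · intro y hy; fin_cases hy <;> assumption
      · intro y hy; fin_cases hy <;> assumption
      · intro y hy i hi
        have hi' : i < 10 := hi
        fin_cases hy <;> interval_cases i <;> assumption
      · intro y hy i hi hU h1 h2
        have hi' : i < 10 := hi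
        fin_cases hy <;> interval_cases i <;>
          first
          | assumption
          | exact absurd rfl h1
          | exact absurd rfl h2
          | exact absurd (by simp) hU
    · have d81 : e ≠ p ∧ ¬ G.Adj e p := ⟨nadj hA.xp eK, ep⟩
      have e91 := hn.rb
      have ce1 : ∀ u ∈ Le, ¬ G.Adj p u := fun u hu h => hn.Lb u hu h.symm
      refine hN preIIAa1 (by simp [preBs]) (fun i => ([x, p, p', q, t, w, z, r, e, e'] : List V).getD i x)
        [Lz, Le, L] ⟨?_, ?_, ?_, ?_, ?_, rfl, ?_, ?_, ?_, ?_, sp⟩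
      · intro y hy; fin_cases hy <;> assumption
      · intro y hy; fin_cases hy <;> assumption
      · intro y hy; fin_cases hy <;> assumption
      · intro y hy; fin_cases hy; intro h; exact cq (h (6, 7) (by simp))
      · intro y hy; exact absurd hy (by simp [preIIAa1])
      · intro y hy; fin_cases hy <;> assumption
      · intro y hy; fin_cases hy <;> assumption
      · intro y hy i hi
        have hi' : i < 10 := hi
        fin_cases hy <;> interval_cases i <;> assumption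
      · intro y hy i hi hU h1 h2
        have hi' : i < 10 := hi
        fin_cases hy <;> interval_cases i <;>
          first
          | assumption
          | exact absurd rfl h1
          | exact absurd rfl h2
          | exact absurd (by simp) hU
  · have d61 : z ≠ p ∧ ¬ G.Adj z p := ⟨nadj hA.xp zK, zp⟩
    rcases he with ⟨ep, ep', hn⟩ | ⟨ep', ep, hn⟩
    · have d82 : e ≠ p' ∧ ¬ G.Adj e p' := ⟨nadj hA.xp' eK, ep'⟩
      have e92 := hn.rb
      have ce2 : ∀ u ∈ Le, ¬ G.Adj p' u := fun u hu h => hn.Lb u hu h.symm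
      refine hN preIIAb0 (by simp [preBs]) (fun i => ([x, p, p', q, t, w, z, r, e, e'] : List V).getD i x)
        [Lz, Le, L] ⟨?_, ?_, ?_, ?_, ?_, rfl, ?_, ?_, ?_, ?_, sp⟩
      · intro y hy; fin_cases hy <;> assumption
      · intro y hy; fin_cases hy <;> assumption
      · intro y hy; fin_cases hy <;> assumption
      · intro y hy; fin_cases hy; intro h; exact cq (h (6, 7) (by simp))
      · intro y hy; exact absurd hy (by simp [preIIAb0])
      · intro y hy; fin_cases hy <;> assumption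
      · intro y hy; fin_cases hy <;> assumption
      · intro y hy i hi
        have hi' : i < 10 := hi
        fin_cases hy <;> interval_cases i <;> assumption
      · intro y hy i hi hU h1 h2
        have hi' : i < 10 := hi
        fin_cases hy <;> interval_cases i <;>
          first
          | assumption
          | exact absurd rfl h1
          | exact absurd rfl h2
          | exact absurd (by simp) hU
    · have d81 : e ≠ p ∧ ¬ G.Adj e p := ⟨nadj hA.xp eK, ep⟩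
      have e91 := hn.rb
      have ce1 : ∀ u ∈ Le, ¬ G.Adj p u := fun u hu h => hn.Lb u hu h.symm
      refine hN preIIAb1 (by simp [preBs]) (fun i => ([x, p, p', q, t, w, z, r, e, e'] : List V).getD i x)
        [Lz, Le, L] ⟨?_, ?_, ?_, ?_, ?_, rfl, ?_, ?_, ?_, ?_, sp⟩
      · intro y hy; fin_cases hy <;> assumption
      · intro y hy; fin_cases hy <;> assumption
      · intro y hy; fin_cases hy <;> assumption
      · intro y hy; fin_cases hy; intro h; exact cq (h (6, 7) (by simp))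
      · intro y hy; exact absurd hy (by simp [preIIAb1])
      · intro y hy; fin_cases hy <;> assumption
      · intro y hy; fin_cases hy <;> assumption
      · intro y hy i hi
        have hi' : i < 10 := hi
        fin_cases hy <;> interval_cases i <;> assumption
      · intro y hy i hi hU h1 h2
        have hi' : i < 10 := hi
        fin_cases hy <;> interval_cases i <;>
          first
          | assumption
          | exact absurd rfl h1
          | exact absurd rfl h2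
          | exact absurd (by simp) hU

end Pool.Agent.Helper64.FL
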