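import Pool.Agent.Helper64.FL.StH

/-! Full list for MP_866009_co: the content of a gap begins and ends in the same clique. -/

set_option autoImplicit false

namespace Pool.Agent.Helper64.FL

open Pool.Agent.Helper64.CT Pool.Agent.Helper64.DT
open Pool.Agent.Helper64.HG (Ovl Model Circ IC HellyCircle ChordModel)

theorem st_SAR (h1 : ST_ARC) (h2 : ST_CNB) : ST_SAR := by
  intro V G x k n P hCI hN i j hij hjk hnn hi hj
  by_contra hcon
  push Not at hcon
  obtain ⟨hne, hna⟩ := hcon
  have hk := hN.k5
  obtain ⟨hs1, hs2, _, hs4, hs5, _, _⟩ := h2 V G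
  have hx : ∀ a l, a ≤ l → l ≤ a + k - 1 → G.Adj x (n l) := fun a l h h' => (hN.arc a).xn l h h'
  have hxn : ∀ l, G.Adj x (n l) := fun l => hx l l (le_refl _) (by omega)
  have hPx : ∀ l m, ∀ u ∈ P l, u ≠ n m := by
    intro l m u hu he
    have h := (hN.arc l).far l (le_refl _) (by omega) u hu
    rw [he] at h
    exact h.2 (hxn m)
  have hjj : i + 1 ≠ j - 1 := fun h => hne (by rw [← h])
  -- distinct
  have d1 : ∀ l, i < l → l ≤ j - 1 → n i ≠ n l := fun l h h' =>
    (hN.arc i).inj i l (le_refl _) h (by omega)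
  have d2 : n (i + 1) ≠ n j := (hN.arc (i + 1)).inj (i + 1) j (le_refl _) (by omega) (by omega)
  -- first connection
  have c1 : Comp G (n (j - 1)) (n i) (n (i + 1)) := by
    have hA := (h1 V G x n P i (i + k - 1) (hN.arc i)).1 i (i + 1) (le_refl _) (by omega) (by omega)
    refine (h1 V G x n P i (i + 1) hA).2 (n (j - 1)) ?_ ?_ i (i + 1) (le_refl _) (by omega)
      (by omega) (le_refl _)
    · intro l hl1 hl2
      rcases Nat.eq_or_lt_of_le hl1 with h | h
      · subst h
        exact ⟨d1 (j - 1) (by omega) (le_refl _), fun h => hi (j - 1) (by omega) (by omega) h.symm⟩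
      · have : l = i + 1 := by omega
        subst this
        exact ⟨hne, fun h => hna h.symm⟩
    · intro l hl1 hl2 u hu
      have : l = i := by omega
      subst this
      exact ⟨hPx l _ u hu, (hN.arc l).cln l (j - 1) (le_refl _) (by omega) (by omega) (by omega)
        (by omega) (by omega) u hu⟩
  have c2 : Comp G (n i) (n (i + 1)) (n (j - 1)) := by
    have hA := (h1 V G x n P i (i + k - 1) (hN.arc i)).1 (i + 1) (j - 1) (by omega) (by omega)
      (by omega)
    refine (h1 V G x n P (i + 1) (j - 1) hA).2 (n i) ?_ ?_ (i + 1) (j - 1) (le_refl _) (by omega)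
      (by omega) (le_refl _)
    · intro l hl1 hl2
      exact ⟨(d1 l (by omega) hl2).symm, hi l (by omega) (by omega)⟩
    · intro l hl1 hl2 u hu
      exact ⟨hPx l _ u hu, (hN.arc i).cln l i (by omega) (by omega) (le_refl _) (by omega)
        (by omega) (by omega) u hu⟩
  have c3 : Comp G (n (i + 1)) (n (j - 1)) (n j) := by
    have hA := (h1 V G x n P (i + 1) (i + 1 + k - 1) (hN.arc (i + 1))).1 (j - 1) j (by omega)
      (by omega) (by omega)
    refine (h1 V G x n P (j - 1) j hA).2 (n (i + 1)) ?_ ?_ (j - 1) j (le_refl _) (by omega)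
      (by omega) (le_refl _)
    · intro l hl1 hl2
      rcases Nat.eq_or_lt_of_le hl1 with h | h
      · subst h
        exact ⟨hne.symm, hna⟩
      · have : l = j := by omega
        subst this
        exact ⟨d2.symm, fun h => hj (i + 1) (by omega) (by omega) h.symm⟩
    · intro l hl1 hl2 u hu
      have : l = j - 1 := by omega
      subst this
      exact ⟨hPx _ _ u hu, (hN.arc (i + 1)).cln (j - 1) (i + 1) (by omega) (by omega) (le_refl _)
        (by omega) (by omega) (by omega) u hu⟩
  -- third connection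
  have f1 : n i ∈ Far G (n (i + 1)) :=
    ⟨d1 (i + 1) (by omega) (by omega), fun h => hi (i + 1) (by omega) (by omega) h.symm⟩
  have f2 : n j ∈ Far G (n (i + 1)) :=
    ⟨d2.symm, fun h => hj (i + 1) (by omega) (by omega) h.symm⟩
  have c4 : Comp G (n (i + 1)) (n i) (n (j - 1)) := by
    have h3 := (hs5 _ _ _).1 c3
    have h4 := (hs1 _ _ _ h3).2
    rw [hs5]
    rcases hnn with h | h
    · rw [h]; exact h4
    · exact hs2 _ _ _ _ (hs4 _ _ _ f1 f2 h) h4
  exact hCI ⟨x, n i, n (i + 1), n (j - 1), hxn i, hxn (i + 1), hxn (j - 1), c1, c2, c4⟩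

end Pool.Agent.Helper64.FL
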